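import Pool.Agent.Helper47.LG.Final
import Pool.Agent.Helper47.LG.Expl

/-! An explicit generator with seed length `O(log n)` for ordered read-once branching programs
with a layout. -/

set_option autoImplicit false

namespace Pool.Agent.Results.MP_10e1ea_lc.LegendreGenerator

open Pool.Agent.Helper47.LG

theorem result (c a d : ℕ) (hd : 1 ≤ d) (μ δ : ℝ) (hδ : 0 < δ) :
    ∃ C A n₀ : ℕ, Explicit (gen d A C) ∧
      ∀ n, n₀ ≤ n → ∀ (w k ℓ : ℕ) (P : ROBP n w) (T : Layout P k a d) (η : ℝ)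
        (σ : Equiv.Perm (Fin n)),
        1 ≤ ℓ → 2 ^ ℓ ≤ n ^ c → 2 ^ k ≤ n ^ c → T.FewFree μ → T.Forgetful ℓ η →
        |P.prob (fun x : Fin n → ZMod 2 => x) - P.prob (fun s i => gen d A C n s (σ i))| ≤
          δ + 2 * η := by
  obtain ⟨C, A, n₀, h⟩ := main c a d hd μ δ hδ
  exact ⟨C, A, n₀, gen_explicit d A C, h⟩

end Pool.Agent.Results.MP_10e1ea_lc.LegendreGenerator
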