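import Pool.Agent.Helper53.NP.Cor

/-!
# An explicit generator with logarithmic seed for programs over finite monoids in DO

The generator `sbits` is a nested sum of powering strings over finite fields of characteristic `p`,
for all primes `p ≤ W + 1`, starting with the largest prime; the last symbols are bits. If the
fields have polynomial size, its seed has `O(log n)` bits. It fools, with polynomially small error,
every ordered read-once branching program, of any width, whose output has a block triangular form
of polynomial size with a bounded number of levels, the diagonal blocks being convex combinations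
of `0` and the matrices `ρ z`, `z ∈ M`, of a representation of a finite monoid `M` with at most `W`
elements in which the idempotents of each `𝒟`-class satisfy `e f e = e` and all groups are
nilpotent. The case of one block: programs of constant width, in any reading order, whose transition
maps generate such a monoid (`Pool.Agent.Helper53.NP.width_fool`).
-/

namespace Pool.Agent.Results.MP_10e1ea_lc.MonoidPrograms

open Pool.Agent.Helper53.NP

/-- An ordered read-once branching program of length `n`, the nodes of each layer labelled by
elements of `V`. -/
structure ROBP (n : ℕ) (V : Type) where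
  /-- the start node -/
  start : V
  /-- the node reached from a node of layer `i` by reading a bit -/
  step : Fin n → Bool → V → V
  /-- the output labels of the nodes of the last layer -/
  accept : V → Bool

/-- the output of the program -/
def ROBP.out {n : ℕ} {V : Type} (P : ROBP n V) (x : Fin n → Bool) : Bool :=
  P.accept (Fin.foldl n (fun v i => P.step i (x i) v) P.start)

theorem result (W w h : ℕ) (hW : 1 ≤ W) : ∃ (s : ℕ → ℕ) (d : ℕ), ∀ c : ℕ, ∃ C : ℕ,
    ∀ n : ℕ, 2 ≤ n →
    ∀ (K : ℕ → Type) [∀ p, Field (K p)] [∀ p, Fintype (K p)] (ℓ : ∀ p, K p →+ ZMod p),
      (∀ p ∈ PS W, n ^ C ≤ Fintype.card (K p) ∧ ℓ p ≠ 0) →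
      ∀ (V : Type) (P : ROBP n V), BlockForm W w h ((n : ℝ) ^ c) P.out →
        |frac (fun x => P.out (sbits ℓ s W d n x)) - frac P.out| ≤ 1 / (n : ℝ) ^ c := by
  obtain ⟨s, d, hs⟩ := top W w h hW
  refine ⟨s, d, fun c => ?_⟩
  obtain ⟨C, hC⟩ := hs c
  exact ⟨C, fun n hn K _ _ ℓ hK V P hP => hC n hn K ℓ hK P.out hP⟩

end Pool.Agent.Results.MP_10e1ea_lc.MonoidPrograms
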