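import Pool.Agent.Helper79K.PRG.Final
import Pool.Agent.Helper79K.PRG.Power

/-!
# Logarithmic seeds for read-once programs with a sliding window and few changes of phase

Consider ordered read-once branching programs of length `n` and arbitrary width whose nodes are
labelled by phases such that along every path the phase changes at most `m` times and such that,
as long as the phase is kept, the current node is determined by the phase and the last `k` bits.
For constant `m` and `k = O(log n)` all these programs are fooled, with any constant error, by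
every generator with polynomially small bias, in particular by the powering generator over a
finite field of polynomial size, whose seed has `O(log n)` bits.
-/

namespace Pool.Agent.Results.MP_10e1ea_lc.SlidingWindowPrograms

open H79K.PRG

/-- The program `P` has a sliding window of `k` bits and at most `m` changes of phase: the nodes
of every layer are labelled by phases with ranks at most `m`, every edge keeps the phase or
strictly increases its rank, and two paths of length `k` that start at nodes of the same phase,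
read the same bits and keep the phase end in the same node. -/
def Scanning {n : ℕ} (P : Prog n) (k m : ℕ) : Prop :=
  ∃ (Φ : Type) (ph : ℕ → P.V → Φ) (rk : Φ → ℕ), Phased P k m ph rk

theorem result (m c : ℕ) (δ : ℝ) (hδ : 0 < δ) : ∃ C : ℕ, ∀ n k : ℕ, 2 ≤ n → 2 ^ k ≤ n ^ c →
    (∀ (S : Type) [Fintype S] [Nonempty S] (G : S → Str n), Biased G (1 / (n : ℝ) ^ C) →
      ∀ P : Prog n, Scanning P k m →
        |frac (fun s => P.accepts (G s)) - frac P.accepts| ≤ δ) ∧
    (∀ (K : Type) [Field K] [Fintype K] (ℓ : K →+ ZMod 2), ℓ ≠ 0 → n ^ C ≤ Fintype.card K →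
      ∀ P : Prog n, Scanning P k m →
        |frac (fun s => P.accepts (powGen ℓ n s)) - frac P.accepts| ≤ δ) := by
  obtain ⟨C0, hC0⟩ := fool_all m (half_pos hδ)
  obtain ⟨C2, hC2⟩ : ∃ C2 : ℕ, (1/2:ℝ) ^ C2 < δ / 2 :=
    exists_pow_lt_of_lt_one (half_pos hδ) (by norm_num)
  have main : ∀ n k : ℕ, 2 ≤ n → 2 ^ k ≤ n ^ c → ∀ (S : Type) [Fintype S] [Nonempty S]
      (G : S → Str n), Biased G (1 / (n : ℝ) ^ ((c + 3) * C0 + C2)) →
      ∀ P : Prog n, Scanning P k m →
        |frac (fun s => P.accepts (G s)) - frac P.accepts| ≤ δ := by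
    intro n k hn hk S _ _ G hG P hP
    obtain ⟨Φ, ph, rk, hP⟩ := hP
    have hn' : (2:ℝ) ≤ n := by exact_mod_cast hn
    have hn0 : (0:ℝ) < n := by linarith
    have h1 := hC0 n k P Φ ph rk hP S G _ (by positivity) hG
    have hk' : (2:ℝ) ^ k ≤ (n:ℝ) ^ c := by exact_mod_cast hk
    have hM : Msc n k ≤ (n:ℝ) ^ (c + 3) := by
      unfold Msc
      have e1 : (n:ℝ) + 2 ≤ (n:ℝ) ^ 2 := by nlinarith
      have e2 : (2:ℝ) ^ (k + 1) ≤ (n:ℝ) ^ c * n := by
        rw [pow_succ]
        exact mul_le_mul hk' hn' (by norm_num) (by positivity)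
      calc ((n:ℝ) + 2) * 2 ^ (k + 1) ≤ (n:ℝ) ^ 2 * ((n:ℝ) ^ c * n) :=
            mul_le_mul e1 e2 (by positivity) (by positivity)
        _ = (n:ℝ) ^ (c + 3) := by rw [pow_add]; ring
    have hM0 : 0 ≤ Msc n k := by have := Msc_ge n k; linarith
    have h2 : 1 / (n : ℝ) ^ ((c + 3) * C0 + C2) * Msc n k ^ C0 ≤ δ / 2 := by
      have e3 : Msc n k ^ C0 ≤ (n:ℝ) ^ ((c + 3) * C0) := by
        rw [pow_mul]
        exact pow_le_pow_left₀ hM0 hM _
      have e4 : (1 / (n:ℝ)) ^ C2 ≤ (1/2) ^ C2 :=
        pow_le_pow_left₀ (by positivity) (one_div_le_one_div_of_le (by norm_num) hn') _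
      calc 1 / (n : ℝ) ^ ((c + 3) * C0 + C2) * Msc n k ^ C0
          ≤ 1 / (n : ℝ) ^ ((c + 3) * C0 + C2) * (n:ℝ) ^ ((c + 3) * C0) :=
            mul_le_mul_of_nonneg_left e3 (by positivity)
        _ = (1 / (n:ℝ)) ^ C2 := by
            rw [pow_add, one_div, one_div, inv_pow]
            field_simp
        _ ≤ δ / 2 := e4.trans hC2.le
    rw [frac_EG, frac_E]
    linarith
  refine ⟨((c + 3) * C0 + C2) + 1, ?_⟩
  intro n k hn hk
  have hn' : (2:ℝ) ≤ n := by exact_mod_cast hn
  have hn0 : (0:ℝ) < n := by linarith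
  refine ⟨?_, ?_⟩
  · intro S _ _ G hG P hP
    refine main n k hn hk S G (fun A hA => (hG A hA).trans ?_) P hP
    refine one_div_le_one_div_of_le (by positivity) ?_
    exact pow_le_pow_right₀ (by linarith) (Nat.le_succ _)
  · intro K _ _ ℓ hℓ hK P hP
    refine main n k hn hk (K × K) (powGen ℓ n)
      (fun A hA => (powGen_biased ℓ hℓ n A hA).trans ?_) P hP
    have hK' : (n:ℝ) ^ (((c + 3) * C0 + C2) + 1) ≤ Fintype.card K := by exact_mod_cast hK
    have hKpos : (0:ℝ) < Fintype.card K := lt_of_lt_of_le (by positivity) hK'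
    rw [div_le_div_iff₀ hKpos (by positivity), one_mul]
    rw [pow_succ] at hK'
    linarith

end Pool.Agent.Results.MP_10e1ea_lc.SlidingWindowPrograms
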