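import Pool.Agent.Helper74.PC.Fool

/-!
Which closure properties make read-once branching programs of unbounded width easy to fool?

Let `f` be a finitary Boolean operation.  Either every small-bias generator (with a constant bias
that depends on `f` and the error only, hence with seed length `O(log n)`) fools all ordered
read-once branching programs of every width whose set of accepted inputs is closed under `f`,
applied coordinatewise, or no generator with seed length at most `n / 3` does so, even with error
`1 / 10`.  The second case holds exactly if `f` is constant, a negated projection, or below or above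
a projection.
-/

namespace Pool.Agent.Results.MP_10e1ea_lc.SmallBiasDichotomy

open Pool.Agent.Helper74.PC

variable {n r w k : ℕ}

/-- The probability that the output of `G` on a uniform seed lies in `A`. -/
noncomputable def pr {Ω : Type} [Fintype Ω] (G : Ω → Fin n → Bool) (A : Set (Fin n → Bool)) : ℝ :=
  (Nat.card {s // G s ∈ A} : ℝ) / Fintype.card Ω

/-- `G` is `δ`-biased: every parity of at least one output bit is `δ`-close to balanced. -/
def Biased (δ : ℝ) (G : (Fin r → Bool) → Fin n → Bool) : Prop :=
  ∀ S : Finset (Fin n), S.Nonempty →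
    |pr G {x | Even (S.filter fun i => x i = true).card} -
      pr G {x | Odd (S.filter fun i => x i = true).card}| ≤ δ

/-- `G` fools the set `A` with error `ε`. -/
def Fools (ε : ℝ) (G : (Fin r → Bool) → Fin n → Bool) (A : Set (Fin n → Bool)) : Prop :=
  |pr (id : (Fin n → Bool) → Fin n → Bool) A - pr G A| ≤ ε

/-- Ordered read-once branching programs of width `w` and length `n`. -/
structure ROBP (w n : ℕ) where
  /-- the start node -/
  start : Fin w
  /-- the transitions of each layer -/
  next : Fin n → Fin w → Bool → Fin w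
  /-- the labels of the last layer -/
  out : Fin w → Bool

/-- The set of the inputs accepted by a program. -/
def ROBP.accepted (B : ROBP w n) : Set (Fin n → Bool) :=
  {x | B.out (Fin.foldl n (fun s i => B.next i s (x i)) B.start) = true}

/-! ### proofs -/

theorem pr_eq {Ω : Type} [Fintype Ω] (G : Ω → Fin n → Bool) (A : Set (Fin n → Bool)) :
    pr G A = ex G (ind A) := by
  classical
  unfold pr ex
  congr 1
  rw [Nat.card_eq_fintype_card, Fintype.card_subtype]
  simp [ind]

theorem dot_eq (c : Fin n → ZMod 2) (y : Fin n → Bool) :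
    dot c y = (((Finset.univ.filter fun i => c i = 1).filter fun i => y i = true).card : ZMod 2) := by
  rw [Finset.filter_filter, Finset.card_filter]
  push_cast
  unfold dot
  refine Finset.sum_congr rfl fun i _ => ?_
  rcases zmod2 (c i) with h | h <;> cases hy : y i <;> simp [h, zb]

theorem chi_eq (c : Fin n → ZMod 2) (y : Fin n → Bool) : chi c y =
    ind {x | Even ((Finset.univ.filter fun i => c i = 1).filter fun i => x i = true).card} y -
    ind {x | Odd ((Finset.univ.filter fun i => c i = 1).filter fun i => x i = true).card} y := by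
  unfold chi
  rw [dot_eq]
  rcases Nat.even_or_odd
    (((Finset.univ.filter fun i => c i = 1).filter fun i => y i = true).card) with h | h
  · have m1 : y ∈ {x : Fin n → Bool | Even ((Finset.univ.filter fun i => c i = 1).filter
        fun i => x i = true).card} := h
    have m2 : y ∉ {x : Fin n → Bool | Odd ((Finset.univ.filter fun i => c i = 1).filter
        fun i => x i = true).card} := fun h' => (Nat.not_odd_iff_even.2 h) h'
    rw [ind_of_mem m1, ind_of_notMem m2]
    have : (((((Finset.univ.filter fun i => c i = 1).filter fun i => y i = true).card : ℕ)) :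
        ZMod 2) = 0 := (ZMod.natCast_eq_zero_iff_even).2 h
    rw [this]; simp [sg]
  · have m1 : y ∉ {x : Fin n → Bool | Even ((Finset.univ.filter fun i => c i = 1).filter
        fun i => x i = true).card} := fun h' => (Nat.not_even_iff_odd.2 h) h'
    have m2 : y ∈ {x : Fin n → Bool | Odd ((Finset.univ.filter fun i => c i = 1).filter
        fun i => x i = true).card} := h
    rw [ind_of_mem m2, ind_of_notMem m1]
    have : (((((Finset.univ.filter fun i => c i = 1).filter fun i => y i = true).card : ℕ)) :
        ZMod 2) = 1 := (ZMod.natCast_eq_one_iff_odd).2 h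
    rw [this]; simp [sg]

theorem sb_of_biased {δ : ℝ} {G : (Fin r → Bool) → Fin n → Bool} (h : Biased δ G) : SB G δ := by
  intro c hc
  obtain ⟨i, hi⟩ := Function.ne_iff.1 hc
  have hi1 : c i = 1 := by
    rcases zmod2 (c i) with h | h
    · exact absurd h hi
    · exact h
  have h1 := h (Finset.univ.filter fun i => c i = 1) ⟨i, by simp [hi1]⟩
  rw [pr_eq, pr_eq] at h1
  have : ex G (chi c) = ex G (ind {x | Even ((Finset.univ.filter fun i => c i = 1).filter
      fun i => x i = true).card}) - ex G (ind {x | Odd ((Finset.univ.filter fun i =>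
      c i = 1).filter fun i => x i = true).card}) := by
    unfold ex
    rw [← sub_div, ← Finset.sum_sub_distrib]
    congr 1
    exact Finset.sum_congr rfl fun s _ => chi_eq c _
  rw [this]; exact h1

theorem fools_iff {ε : ℝ} {G : (Fin r → Bool) → Fin n → Bool} {A : Set (Fin n → Bool)} :
    Fools ε G A ↔ |dif G (ind A)| ≤ ε := by
  unfold Fools dif
  rw [pr_eq, pr_eq, abs_sub_comm]

theorem pat_mono {c c' : ℕ} (h : c ≤ c') {A : Set (Fin n → Bool)} (hA : Pat c A) : Pat c' A :=
  let ⟨F, hF, hA⟩ := hA
  ⟨F, fun q hq => (hF q hq).trans h, hA⟩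

theorem pat_of_nu {ι : Type} [Fintype ι] [DecidableEq ι] [Nonempty ι] {A : Set (Fin n → Bool)}
    (h : CNU ι A) : Pat (Fintype.card ι) A := by
  refine ⟨{q | q.1.card < Fintype.card ι ∧ ∀ g ∈ A, ∃ j ∈ q.1, g j ≠ q.2 j},
    fun q hq => hq.1.le, fun g => ⟨fun hg q hq => hq.2 g hg, fun hg => ?_⟩⟩
  refine baker_pixley h g fun T hT => ?_
  by_contra hcon
  push Not at hcon
  obtain ⟨j, hj, e⟩ := hg (T, g) ⟨hT, hcon⟩
  exact e rfl

/-- every set is accepted by a program of width `2 ^ n` -/
theorem exists_robp (A : Set (Fin n → Bool)) : ∃ B : ROBP (2 ^ n) n, B.accepted = A := by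
  classical
  have e : (Fin n → Bool) ≃ Fin (2 ^ n) := Fintype.equivFinOfCardEq (by simp)
  refine ⟨⟨e fun _ => false, fun i s b => e (Function.update (e.symm s) i b),
    fun s => decide (e.symm s ∈ A)⟩, ?_⟩
  ext x
  have key : ∀ (m : ℕ) (hm : m ≤ n), Fin.foldl m (fun (s : Fin (2 ^ n)) (i : Fin m) =>
      e (Function.update (e.symm s) (Fin.castLE hm i) (x (Fin.castLE hm i)))) (e fun _ => false) =
      e fun j => if j.1 < m then x j else false := by
    intro m
    induction m with
    | zero => intro hm; simp
    | succ m ih =>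
      intro hm
      rw [Fin.foldl_succ_last]
      have := ih (by omega)
      have h2 : (Fin.foldl m (fun (s : Fin (2 ^ n)) (i : Fin m) =>
          e (Function.update (e.symm s) (Fin.castLE hm i.castSucc)
            (x (Fin.castLE hm i.castSucc)))) (e fun _ => false)) =
          e fun j => if j.1 < m then x j else false := this
      rw [h2]
      congr 1
      funext j
      simp only [Equiv.symm_apply_apply]
      by_cases hj : j = Fin.castLE hm (Fin.last m)
      · subst hj; simp
      · rw [Function.update_of_ne hj]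
        have : j.1 ≠ m := fun h => hj (Fin.ext h)
        by_cases h : j.1 < m
        · simp [h, Nat.lt_succ_of_lt h]
        · have : ¬ j.1 < m + 1 := by omega
          simp [h, this]
  have h1 := key n le_rfl
  show decide (e.symm (Fin.foldl n (fun s i => e (Function.update (e.symm s) i (x i)))
    (e fun _ => false)) ∈ A) = true ↔ _
  have h2 : Fin.foldl n (fun (s : Fin (2 ^ n)) (i : Fin n) =>
      e (Function.update (e.symm s) i (x i))) (e fun _ => false) = e x := by
    have h3 : (fun j : Fin n => if j.1 < n then x j else false) = x := by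
      funext j; simp
    rw [h3] at h1
    exact h1
  rw [h2]; simp

theorem pr_id_le {A : Set (Fin n → Bool)} (h : A.ncard * 8 ≤ 2 ^ n) :
    pr (id : (Fin n → Bool) → Fin n → Bool) A ≤ 1 / 8 := by
  unfold pr
  have h1 : Nat.card {s // (id : (Fin n → Bool) → Fin n → Bool) s ∈ A} = A.ncard := rfl
  rw [h1]
  simp only [Fintype.card_fun, Fintype.card_bool, Fintype.card_fin]
  push_cast
  rw [div_le_iff₀ (by positivity)]
  have : (A.ncard : ℝ) * 8 ≤ 2 ^ n := by exact_mod_cast h
  linarith

theorem pr_one {G : (Fin r → Bool) → Fin n → Bool} {A : Set (Fin n → Bool)}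
    (h : ∀ s, G s ∈ A) : pr G A = 1 := by
  unfold pr
  have : Nat.card {s // G s ∈ A} = Fintype.card (Fin r → Bool) := by
    rw [← Nat.card_eq_fintype_card]
    exact Nat.card_congr (Equiv.subtypeUnivEquiv h)
  rw [this]
  exact div_self (by simp)

theorem not_fools_of_sparse {G : (Fin r → Bool) → Fin n → Bool} {A : Set (Fin n → Bool)}
    (h : ∀ s, G s ∈ A) (hA : A.ncard * 8 ≤ 2 ^ n) : ¬ Fools (1 / 10) G A := by
  intro hF
  unfold Fools at hF
  rw [pr_one h] at hF
  have := pr_id_le hA
  have := (abs_le.1 hF).1
  linarith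

theorem ncard_range_le (G : (Fin r → Bool) → Fin n → Bool) : (Set.range G).ncard ≤ 2 ^ r := by
  rw [← Set.image_univ]
  refine (Set.ncard_image_le (Set.toFinite _)).trans ?_
  rw [Set.ncard_univ]
  simp

/-- the case of an operation below a projection -/
theorem below {f : Op k} (i : Fin k) (hi : ∀ v, f v = true → v i = true) (hn : 18 ≤ n)
    (hr : 3 * r ≤ n) (G : (Fin r → Bool) → Fin n → Bool) :
    ∃ A : Set (Fin n → Bool), ClosedUnder f A ∧ ¬ Fools (1 / 10) G A := by
  classical
  have hdec : ∀ A : Set (Fin n → Bool), (∀ x ∈ A, ∀ y : Fin n → Bool,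
      (∀ j, y j = true → x j = true) → y ∈ A) → ClosedUnder f A := by
    intro A hA g hg
    exact hA (g i) (hg i) _ fun j hj => hi _ hj
  let T : Set (Fin n → Bool) := {x | 2 * (Finset.univ.filter fun j => x j = true).card ≤ n}
  by_cases hT : Fools (1 / 10) G T
  swap
  · refine ⟨T, hdec T fun x hx y hyx => ?_, hT⟩
    refine le_trans (Nat.mul_le_mul_left 2 (Finset.card_le_card ?_)) hx
    intro j hj
    simp only [Finset.mem_filter, Finset.mem_univ, true_and] at hj ⊢
    exact hyx j hj
  -- `T` has probability at least one half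
  have hTU : (1 / 2 : ℝ) ≤ pr (id : (Fin n → Bool) → Fin n → Bool) T := by
    have h1 : T.ncard = (cpl '' T).ncard := (Set.ncard_image_of_injective T (fun a b h => by
      have := congrArg cpl h
      simpa using this)).symm
    have h2 : T ∪ cpl '' T = Set.univ := by
      rw [Set.eq_univ_iff_forall]
      intro x
      by_cases hx : x ∈ T
      · exact Or.inl hx
      · right
        refine ⟨cpl x, ?_, cpl_cpl x⟩
        have h3 : ¬ 2 * (Finset.univ.filter fun j => x j = true).card ≤ n := hx
        show 2 * (Finset.univ.filter fun j => cpl x j = true).card ≤ n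
        have h4 := Finset.card_filter_add_card_filter_not (s := (Finset.univ : Finset (Fin n)))
          (fun j => x j = true)
        have h5 : (Finset.univ.filter fun j => cpl x j = true) =
            Finset.univ.filter fun j => ¬ x j = true := by
          ext j; simp [cpl]
        rw [h5]
        simp only [Finset.card_univ, Fintype.card_fin] at h4
        omega
    have h3 : 2 ^ n ≤ T.ncard + T.ncard := by
      have h4 := Set.ncard_union_le T (cpl '' T)
      rw [h2, ← h1, Set.ncard_univ] at h4
      simpa using h4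
    unfold pr
    have h4 : Nat.card {s // (id : (Fin n → Bool) → Fin n → Bool) s ∈ T} = T.ncard := rfl
    rw [h4]
    simp only [Fintype.card_fun, Fintype.card_bool, Fintype.card_fin]
    push_cast
    rw [le_div_iff₀ (by positivity)]
    have : (2 : ℝ) ^ n ≤ T.ncard + T.ncard := by exact_mod_cast h3
    linarith
  let A : Set (Fin n → Bool) := {x | ∃ s, G s ∈ T ∧ ∀ j, x j = true → G s j = true}
  have hA : ClosedUnder f A := hdec A fun x ⟨s, hs, hx⟩ y hyx => ⟨s, hs, fun j hj => hx j (hyx j hj)⟩
  refine ⟨A, hA, fun hF => ?_⟩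
  have hTA : pr G T ≤ pr G A := by
    rw [pr_eq, pr_eq]
    unfold ex
    refine div_le_div_of_nonneg_right (Finset.sum_le_sum fun s _ => ?_) (by positivity)
    by_cases hs : G s ∈ T
    · have : G s ∈ A := ⟨s, hs, fun j hj => hj⟩
      rw [ind_of_mem hs, ind_of_mem this]
    · rw [ind_of_notMem hs]; exact ind_nonneg _ _
  have hAc : A.ncard * 8 ≤ 2 ^ n := by
    have h1 : A ⊆ ⋃ s ∈ (Finset.univ.filter fun s => G s ∈ T),
        {x : Fin n → Bool | ∀ j, x j = true → G s j = true} := by
      rintro x ⟨s, hs, hx⟩
      simp only [Set.mem_iUnion]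
      exact ⟨s, by simpa using hs, hx⟩
    have h2 : ∀ s, G s ∈ T → {x : Fin n → Bool | ∀ j, x j = true → G s j = true}.ncard ≤
        2 ^ (n / 2) := by
      intro s hs
      let O := Finset.univ.filter fun j => G s j = true
      have hO : 2 * O.card ≤ n := hs
      have h3 : {x : Fin n → Bool | ∀ j, x j = true → G s j = true}.ncard ≤
          Nat.card (O → Bool) := by
        rw [← Set.ncard_univ]
        refine Set.ncard_le_ncard_of_injOn (fun x (j : O) => x j) (fun _ _ => Set.mem_univ _) ?_
          (Set.toFinite _)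
        intro x hx y hy e
        funext j
        by_cases hj : G s j = true
        · exact congrFun e ⟨j, by simp [O, hj]⟩
        · have h4 : x j = false := by
            by_contra h; exact hj (hx j (by simpa using h))
          have h5 : y j = false := by
            by_contra h; exact hj (hy j (by simpa using h))
          rw [h4, h5]
      refine h3.trans ?_
      rw [Nat.card_eq_fintype_card, Fintype.card_fun, Fintype.card_bool, Fintype.card_coe]
      exact Nat.pow_le_pow_right (by norm_num) (by omega)
    have h3 : A.ncard ≤ 2 ^ r * 2 ^ (n / 2) := by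
      refine (Set.ncard_le_ncard h1 (Set.toFinite _)).trans ?_
      refine (Finset.set_ncard_biUnion_le _ _).trans ?_
      refine (Finset.sum_le_card_nsmul _ _ (2 ^ (n / 2)) fun s hs => h2 s (by
        simpa using hs)).trans ?_
      rw [smul_eq_mul]
      refine Nat.mul_le_mul_right _ ((Finset.card_le_univ _).trans ?_)
      simp
    calc A.ncard * 8 ≤ 2 ^ r * 2 ^ (n / 2) * 8 := Nat.mul_le_mul_right _ h3
      _ = 2 ^ (r + n / 2 + 3) := by rw [pow_add, pow_add]; norm_num
      _ ≤ 2 ^ n := Nat.pow_le_pow_right (by norm_num) (by omega)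
  have h1 := pr_id_le hAc
  have h2 := (abs_le.1 hT).2
  have h3 := (abs_le.1 hF).1
  linarith

theorem pr_dual {G : (Fin r → Bool) → Fin n → Bool} {A : Set (Fin n → Bool)} :
    pr G (dual A) = pr (fun s => cpl (G s)) A := rfl

theorem pr_id_dual {A : Set (Fin n → Bool)} :
    pr (id : (Fin n → Bool) → Fin n → Bool) (dual A) = pr (id : (Fin n → Bool) → Fin n → Bool) A := by
  unfold pr
  congr 2
  refine Nat.card_congr ⟨fun x => ⟨cpl x.1, x.2⟩, fun x => ⟨cpl x.1, ?_⟩, fun x => ?_, fun x => ?_⟩
  · show cpl (cpl x.1) ∈ A
    rw [cpl_cpl]; exact x.2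
  · simp
  · simp

theorem wide_bad {f : Op k} (hf : Wide f) (hn : 18 ≤ n) (hr : 3 * r ≤ n)
    (G : (Fin r → Bool) → Fin n → Bool) :
    ∃ A : Set (Fin n → Bool), ClosedUnder f A ∧ ¬ Fools (1 / 10) G A := by
  have hpow : 2 ^ r * 16 ≤ 2 ^ n := by
    calc 2 ^ r * 16 = 2 ^ (r + 4) := by rw [pow_add]; norm_num
      _ ≤ 2 ^ n := Nat.pow_le_pow_right (by norm_num) (by omega)
  have hpos : 1 ≤ 2 ^ r := Nat.one_le_two_pow
  have hR := ncard_range_le G
  rcases hf with ⟨c, hc⟩ | ⟨i, h | h | h⟩
  · refine ⟨Set.range G ∪ {fun _ => c}, fun g _ => ?_, not_fools_of_sparse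
      (fun s => Or.inl ⟨s, rfl⟩) ?_⟩
    · right
      funext j
      exact hc _
    · have h1 := Set.ncard_union_le (Set.range G) {fun _ => c}
      rw [Set.ncard_singleton] at h1
      omega
  · refine ⟨Set.range G ∪ cpl '' Set.range G, fun g hg => ?_, not_fools_of_sparse
      (fun s => Or.inl ⟨s, rfl⟩) ?_⟩
    · have h1 : (fun j => f fun a => g a j) = cpl (g i) := by
        funext j; exact h _
      rw [h1]
      rcases hg i with h2 | ⟨x, hx, h2⟩
      · exact Or.inr ⟨_, h2, rfl⟩
      · rw [← h2, cpl_cpl]; exact Or.inl hx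
    · have h1 := Set.ncard_union_le (Set.range G) (cpl '' Set.range G)
      have h2 := Set.ncard_image_le (f := cpl) (Set.toFinite (Set.range G))
      omega
  · exact below i h hn hr G
  · obtain ⟨A, hA, hF⟩ := below (f := fun v => !f fun j => !v j) i (fun v hv => by
      by_contra hcon
      have := h (fun j => !v j) (by simpa using hcon)
      simp [this] at hv) hn hr (fun s => cpl (G s))
    refine ⟨dual A, ?_, fun hF' => hF ?_⟩
    · have := CI.dual (t := fun v : Fin k → Bool => !f fun j => !v j) (P := A) hA
      intro g hg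
      simpa using this g hg
    · unfold Fools at hF' ⊢
      rw [pr_id_dual, pr_dual] at hF'
      exact hF'

theorem result (f : Op k) :
    (¬ Wide f → ∀ ε : ℝ, 0 < ε → ∃ δ : ℝ, 0 < δ ∧ ∀ (n r w : ℕ)
      (G : (Fin r → Bool) → Fin n → Bool), Biased δ G →
      ∀ B : ROBP w n, ClosedUnder f B.accepted → Fools ε G B.accepted) ∧
    (Wide f → ∀ (n r : ℕ), 18 ≤ n → 3 * r ≤ n → ∀ G : (Fin r → Bool) → Fin n → Bool,
      ∃ B : ROBP (2 ^ n) n, ClosedUnder f B.accepted ∧ ¬ Fools (1 / 10) G B.accepted) := by
  constructor
  · intro hw ε hε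
    obtain ⟨δ, hδ, h⟩ := fool_pat (2 * k + 2) ε hε
    refine ⟨min δ ε, lt_min hδ hε, fun n r w G hG B hB => ?_⟩
    rw [fools_iff]
    have hSB := sb_of_biased hG
    rcases not_wide hB hw with h1 | h1 | h1
    · exact (fool_affine (lt_min hδ hε).le hSB h1).trans (min_le_right _ _)
    · refine h n _ G (fun c hc => (hSB c hc).trans (min_le_left _ _)) _ (pat_mono ?_ (pat_of_nu h1))
      simp
    · have hk : Nonempty (Fin k) := by
        by_contra hcon
        apply hw
        refine Or.inl ⟨f fun _ => true, fun v => ?_⟩
        congr 1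
        funext a
        exact (hcon ⟨a⟩).elim
      refine h n _ G (fun c hc => (hSB c hc).trans (min_le_left _ _)) _ (pat_mono ?_ (pat_of_nu h1))
      simp; omega
  · intro hw n r hn hr G
    obtain ⟨A, hA, hF⟩ := wide_bad hw hn hr G
    obtain ⟨B, hB⟩ := exists_robp A
    exact ⟨B, hB ▸ hA, hB ▸ hF⟩

end Pool.Agent.Results.MP_10e1ea_lc.SmallBiasDichotomy
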